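import Pool.Agent.N889.WU.Stm2

/-!
Project WU (helper889): the tail has length at most one.
-/

set_option autoImplicit false

open Polynomial IntermediateField

namespace Pool.Agent.N370.WU

open Pool.Agent.N889.WU

universe u

/-- The image of `fm` under an algebra homomorphism. -/
theorem map_fm {k M L : Type u} [Field k] [Field M] [Field L] [Algebra k M] [Algebra k L]
    (i : M →ₐ[k] L) (p s : ℕ) (h : k[X]) (c z : M) :
    i (fm p s h c z) = fm p s h (i c) (i z) := by
  unfold fm
  rw [map_add, map_pow, aeval_algHom_apply]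

/-- The derivative of a `p ^ s`-th power. -/
theorem D_pow {p s : ℕ} {k L : Type u} [Field k] [Field L] [Algebra k L] [CharP L p]
    (hs : 1 ≤ s) (D : Derivation k L L) (y : L) : D (y ^ p ^ s) = 0 := by
  rw [Derivation.leibniz_pow]
  have h0 : ((p ^ s : ℕ) : L) = 0 := by
    rw [Nat.cast_pow, CharP.cast_eq_zero, zero_pow (by omega)]
  rw [nsmul_eq_mul, h0, zero_mul]

/-- The derivative of `fm`. -/
theorem D_fm {p s : ℕ} {k L : Type u} [Field k] [Field L] [Algebra k L] [CharP L p]
    (hs : 1 ≤ s) (D : Derivation k L L) (h : k[X]) (c z : L) :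
    D (fm p s h c z) = D c := by
  unfold fm
  rw [map_add, D_pow hs, zero_add]

/-- Points with a finite orbit. -/
theorem fin_orbit {L : Type u} (f : L → L) (z z₀ : L) (h0 : f z₀ = z₀) (h1 : f (f z) = z₀) :
    (Set.range fun m : ℕ => f^[m] z).Finite := by
  refine Set.Finite.subset (s := {z, f z, z₀}) (by simp) ?_
  rintro _ ⟨m, rfl⟩
  have key : ∀ m : ℕ, f^[m + 2] z = z₀ := by
    intro m
    induction m with
    | zero => simpa using h1
    | succ m ih => rw [Function.iterate_succ_apply', ih, h0]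
  rcases m with _ | _ | m
  · simp
  · simp
  · simp [key m]

/-- The core: the field is generated by `t`, `z`, `z₀`. -/
theorem core (hKP : S_KP.{u}) (hSIZE : S_SIZE.{u}) (hLOC2 : S_LOC2.{u}) (hALGX : S_ALGX.{u})
    (hPOLE : S_POLE.{u}) (hKER : S_KER.{u}) (hMEAS : S_MEAS.{u})
    (p s : ℕ) [Fact p.Prime] (k L : Type u) [Field k] [IsAlgClosed k]
    [CharP k p] [Field L] [Algebra k L] (t : L) (ht : SepFin k t) (hs : 1 ≤ s)
    (D : Derivation k L L) (hD : D t = 1) (n : ℕ) :
    ∀ (h : k[X]) (c : L), ¬ p ∣ h.natDegree → Module.finrank k⟮t⟯ L + 2 ≤ h.natDegree →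
    Transcendental k c → Module.finrank k⟮c⟯ L = n → ∀ z z₀ : L,
    IntermediateField.adjoin k {t, z, z₀} = ⊤ →
    fm p s h c z₀ = z₀ → fm p s h c (fm p s h c z) = z₀ → fm p s h c z = z₀ := by
  have : CharP L p := charP_of_injective_algebraMap (algebraMap k L).injective p
  have : ExpChar L p := ExpChar.prime Fact.out
  have : ExpChar k p := ExpChar.prime Fact.out
  induction n using Nat.strong_induction_on with
  | _ n ih =>
  intro h c hpe hdeg hc hn z z₀ hgen h0 h2
  by_contra hne
  have hfd : FiniteDimensional k⟮t⟯ L := ht.2.1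
  have hpos : 0 < Module.finrank k⟮t⟯ L := Module.finrank_pos
  have h3 : 3 ≤ h.natDegree := by omega
  set x : L := fm p s h c z with hx
  have hx0 : fm p s h c x = z₀ := h2
  have hpow : ∀ a b : L, a ^ p ^ s = b ^ p ^ s → a = b := by
    intro a b hab
    exact iterateFrobenius_inj L p s (by simpa [iterateFrobenius_def] using hab)
  have haev : aeval x h = aeval z₀ h := by
    apply hpow
    have e1 : (aeval x h) ^ p ^ s + c = z₀ := hx0
    have e2 : (aeval z₀ h) ^ p ^ s + c = z₀ := h0
    exact add_right_cancel (e1.trans e2.symm)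
  have hdiff : (aeval z h - aeval z₀ h) ^ p ^ s = x - z₀ := by
    rw [sub_pow_char_pow]
    have e1 : x = (aeval z h) ^ p ^ s + c := rfl
    have e2 : (aeval z₀ h) ^ p ^ s + c = z₀ := h0
    rw [e1]
    linear_combination -e2
  have hDx : D x = D c := D_fm hs D h c z
  have hDz₀ : D z₀ = D c := by
    conv_lhs => rw [← h0]
    exact D_fm hs D h c z₀
  have oz : (Set.range fun m : ℕ => (fm p s h c)^[m] z).Finite := fin_orbit _ z z₀ h0 h2
  have ox : (Set.range fun m : ℕ => (fm p s h c)^[m] x).Finite :=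
    fin_orbit _ x z₀ h0 (by rw [hx0, h0])
  have oz₀ : (Set.range fun m : ℕ => (fm p s h c)^[m] z₀).Finite :=
    fin_orbit _ z₀ z₀ h0 (by rw [h0, h0])
  by_cases hDc : D c = 0
  · have hDz₀' : D z₀ = 0 := by rw [hDz₀, hDc]
    by_cases hDz : D z = 0
    · -- everything is a `p`-th power
      obtain ⟨y, hy⟩ := hKER p k L t D ht hD z hDz
      obtain ⟨y₀, hy₀⟩ := hKER p k L t D ht hD z₀ hDz₀'
      obtain ⟨b, hb⟩ := hKER p k L t D ht hD c hDc
      have : PerfectField k := inferInstance
      have : PerfectRing k p := PerfectField.toPerfectRing p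
      set g : k[X] := h.map (frobeniusEquiv k p).symm.toRingHom with hg
      have hgh : g.map (frobenius k p) = h := by
        rw [hg, Polynomial.map_map]
        have : (frobenius k p).comp (frobeniusEquiv k p).symm.toRingHom = RingHom.id k := by
          ext a
          simp
        rw [this, Polynomial.map_id]
      have hdg : g.natDegree = h.natDegree := by
        conv_rhs => rw [← hgh, natDegree_map]
      have haevg : ∀ v : L, aeval (v ^ p) h = (aeval v g) ^ p := by
        intro v
        rw [← map_pow, ← map_frobenius_expand p g, map_expand, hgh, expand_aeval]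
      have hfg : ∀ v : L, fm p s h c (v ^ p) = (fm p s g b v) ^ p := by
        intro v
        unfold fm
        rw [haevg, add_pow_char, hb]
        ring
      have hinj : ∀ a b : L, a ^ p = b ^ p → a = b := by
        intro a b hab
        exact frobenius_inj L p (by simpa [frobenius_def] using hab)
      have hbt : Transcendental k b := by
        intro hba
        exact hc (hb ▸ hba.pow p)
      have hlt : Module.finrank k⟮b⟯ L < n := by
        have := (hMEAS p k L t ht.1 ht.2.1 b hbt).2
        rw [hb, hn] at this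
        exact this
      have hgen' : IntermediateField.adjoin k {t, y, y₀} = ⊤ := by
        rw [eq_top_iff, ← hgen, adjoin_le_iff]
        rintro v (rfl | rfl | rfl)
        · exact subset_adjoin _ _ (by simp)
        · rw [← hy]
          exact pow_mem (subset_adjoin _ _ (by simp)) p
        · rw [← hy₀]
          exact pow_mem (subset_adjoin _ _ (by simp)) p
      have f0 : fm p s g b y₀ = y₀ := by
        apply hinj
        rw [← hfg, hy₀, h0]
      have f2 : fm p s g b (fm p s g b y) = y₀ := by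
        apply hinj
        rw [← hfg, ← hfg, hy, hy₀, ← hx, hx0]
      have f1 := ih _ hlt g b (by rw [hdg]; exact hpe) (by rw [hdg]; exact hdeg) hbt rfl y y₀
        hgen' f0 f2
      apply hne
      rw [hx, ← hy, hfg, f1, hy₀]
    · apply hDz
      refine hKP k L t D ht hD (h.natDegree - 2) (by omega) z z₀ (D z) hgen ?_
      intro A hA N hN a b' hab
      refine hLOC2 p s k L h (x - z₀) z z₀ A D N hs h3 hpe hA hN hDz₀' hdiff ?_ a b' (by omega)
      have S1 := hSIZE p s k L h c A (by omega) hA.1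
      by_cases hcA : c ∈ A
      · exact Or.inl ⟨(S1 z z oz oz).1 hcA, (S1 z₀ z₀ oz₀ oz₀).1 hcA⟩
      · refine Or.inr ⟨((S1 z z oz oz).2 hcA).1, ((S1 z₀ z₀ oz₀ oz₀).2 hcA).1,
          ((S1 z z₀ oz oz₀).2 hcA).2, ((S1 z₀ z oz₀ oz).2 hcA).2, ?_⟩
        rw [sub_div]
        exact sub_mem ((S1 x z ox oz).2 hcA).2 ((S1 z₀ z oz₀ oz).2 hcA).2
  · obtain ⟨A, hA, hcA⟩ := hPOLE k L t ht c hc
    have S1 := hSIZE p s k L h c A (by omega) hA.1
    apply hne
    exact hALGX p k L h x z₀ A D h3 hpe hA ((S1 z₀ z₀ oz₀ oz₀).2 hcA).1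
      ((S1 x z₀ ox oz₀).2 hcA).2 ((S1 z₀ x oz₀ ox).2 hcA).2 haev (by rw [hDx, hDz₀])
      (by rw [hDz₀]; exact hDc)

/-- P2: the tail has length at most one. -/
theorem t_P2 (hKP : S_KP.{u}) (hSIZE : S_SIZE.{u}) (hLOC2 : S_LOC2.{u}) (hALGX : S_ALGX.{u})
    (hPOLE : S_POLE.{u}) (hDER : S_DER.{u}) (hKER : S_KER.{u}) (hRED : S_RED.{u})
    (hMEAS : S_MEAS.{u}) : S_P2.{u} := by
  intro p s _ k L _ _ _ _ _ t ht h c hs hpe hdeg hc z z₀ h0 h2
  obtain ⟨M, iM, iA, i, t₁, z₁, w₁, e1, e2, e3, hsf, hfr, hgen⟩ := hRED k L t z z₀ ht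
  have hinj : Function.Injective i := i.toRingHom.injective
  set c₁ : M := w₁ - (aeval w₁ h) ^ p ^ s with hc₁
  have hic : i c₁ = c := by
    rw [hc₁, map_sub, map_pow, ← aeval_algHom_apply, e3]
    have e : (aeval z₀ h) ^ p ^ s + c = z₀ := h0
    rw [sub_eq_iff_eq_add]
    rw [add_comm]
    exact e.symm
  have hct : Transcendental k c₁ := by
    intro halg
    apply hc
    rw [← hic]
    exact halg.algHom i
  obtain ⟨D, hD⟩ := hDER k M t₁ hsf
  have g0 : fm p s h c₁ w₁ = w₁ := by
    unfold fm
    rw [hc₁]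
    ring
  have g2 : fm p s h c₁ (fm p s h c₁ z₁) = w₁ := by
    apply hinj
    rw [map_fm, map_fm, hic, e2, e3, h2]
  have g1 := core hKP hSIZE hLOC2 hALGX hPOLE hKER hMEAS p s k M t₁ hsf hs D hD _ h c₁ hpe
    (by omega) hct rfl z₁ w₁ hgen g0 g2
  have := congrArg i g1
  rw [map_fm, hic, e2, e3] at this
  exact this

end Pool.Agent.N370.WU
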